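import Pool.Agent.Helper218.Lk15

set_option autoImplicit false

namespace Pool.Agent.Results.MP_060950_al.LockettIntersection

open Pool.Agent.Helper218

/-- A Fitting class: a class `X` of finite soluble groups containing the trivial group, closed under
isomorphisms, normal subgroups, and products of two normal subgroups (of an arbitrary finite
group). -/
structure IsFittingClass (X : (G : Type) → [Group G] → Prop) : Prop where
  finite : ∀ (G : Type) [Group G], X G → Finite G
  soluble : ∀ (G : Type) [Group G], X G → Group.IsSolvable G
  trivial : X Unit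
  iso : ∀ (G H : Type) [Group G] [Group H], Nonempty (G ≃* H) → X G → X H
  normal : ∀ (G : Type) [Group G] (N : Subgroup G), N.Normal → X G → X ↥N
  product : ∀ (G : Type) [Group G] [Finite G] (N₁ N₂ : Subgroup G), N₁.Normal → N₂.Normal →
    X ↥N₁ → X ↥N₂ → X ↥(N₁ ⊔ N₂)

/-- The `X`-radical of `G`: the join of all normal subgroups of `G` lying in `X`. For a Fitting class
`X` and a finite group `G` it is the largest normal subgroup of `G` lying in `X`, see
`radical_isGreatest` below. -/
def radical (X : (G : Type) → [Group G] → Prop) (G : Type) [Group G] : Subgroup G :=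
  sSup {N : Subgroup G | N.Normal ∧ X ↥N}

/-- The `X`-radical of a direct product of two finite soluble groups is the direct product of the
`X`-radicals. -/
def RadicalOfProduct (X : (G : Type) → [Group G] → Prop) : Prop :=
  ∀ (G H : Type) [Group G] [Group H], Finite G → Finite H → Group.IsSolvable G →
    Group.IsSolvable H → radical X (G × H) = (radical X G).prod (radical X H)

/-- `X^*`: the smallest Fitting class containing `X` whose radical respects direct products, defined
as the intersection of all of these; see `upperStar_isLeast` below. -/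
def upperStar (X : (G : Type) → [Group G] → Prop) : (G : Type) → [Group G] → Prop :=
  fun G _ => ∀ Y : (G : Type) → [Group G] → Prop, IsFittingClass Y → RadicalOfProduct Y →
    (∀ (H : Type) [Group H], X H → Y H) → Y G

/-- `X_*`: the intersection of all Fitting classes `Y` with `Y^* = X^*`. -/
def lowerStar (X : (G : Type) → [Group G] → Prop) : (G : Type) → [Group G] → Prop :=
  fun G _ => ∀ Y : (G : Type) → [Group G] → Prop, IsFittingClass Y →
    (∀ (H : Type) [Group H], upperStar Y H ↔ upperStar X H) → Y G

/-- The class of all finite soluble groups. -/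
def FiniteSoluble : (G : Type) → [Group G] → Prop := fun G _ => Finite G ∧ Group.IsSolvable G

/-- The Lockett condition for `X`: the intersection of `X` with the lower star of the class of all
finite soluble groups equals `X_*`. -/
def LockettCondition (X : (G : Type) → [Group G] → Prop) : Prop :=
  ∀ (G : Type) [Group G], (X G ∧ lowerStar FiniteSoluble G) ↔ lowerStar X G

theorem fit_iff (X : (G : Type) → [Group G] → Prop) : IsFittingClass X ↔ Lk.Fit X :=
  ⟨fun h => ⟨fun G _ hG => ⟨h.finite G hG, h.soluble G hG⟩, h.trivial,
      fun G H _ _ e => h.iso G H ⟨e⟩, h.normal, h.product⟩,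
    fun h => ⟨fun G _ hG => (h.sol G hG).1, fun G _ hG => (h.sol G hG).2, h.one,
      fun G H _ _ e => h.iso G H e.some, h.nrm, h.prod⟩⟩

theorem lock_iff (X : (G : Type) → [Group G] → Prop) : RadicalOfProduct X ↔ Lk.Lock X :=
  ⟨fun h G H _ _ a b c d => h G H a c b d, fun h G H _ _ a b c d => h G H a c b d⟩

theorem star_iff (X : (G : Type) → [Group G] → Prop) (G : Type) [Group G] :
    upperStar X G ↔ Lk.star X G :=
  ⟨fun h Y hY hL hX => h Y ((fit_iff Y).2 hY) ((lock_iff Y).2 hL) hX,
    fun h Y hY hL hX => h Y ((fit_iff Y).1 hY) ((lock_iff Y).1 hL) hX⟩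

theorem lower_iff (X : (G : Type) → [Group G] → Prop) (G : Type) [Group G] :
    lowerStar X G ↔ Lk.lower X G :=
  ⟨fun h Y hY hs => h Y ((fit_iff Y).2 hY) (fun H _ =>
      (star_iff Y H).trans ((hs H).trans (star_iff X H).symm)),
    fun h Y hY hs => h Y ((fit_iff Y).1 hY) (fun H _ =>
      (star_iff Y H).symm.trans ((hs H).trans (star_iff X H)))⟩

theorem lc_iff (X : (G : Type) → [Group G] → Prop) : LockettCondition X ↔ Lk.LC X := by
  constructor
  · intro h G _
    have h1 := h G
    rw [lower_iff, lower_iff] at h1
    exact h1
  · intro h G _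
    have h1 := h G
    rw [lower_iff, lower_iff]
    exact h1

/-- Sanity check: the radical is the largest normal subgroup lying in the class. -/
theorem radical_isGreatest (X : (G : Type) → [Group G] → Prop) (hX : IsFittingClass X) (G : Type)
    [Group G] [Finite G] : IsGreatest {N : Subgroup G | N.Normal ∧ X ↥N} (radical X G) :=
  ⟨((fit_iff X).1 hX).rad_spec G, fun _ hN => le_sSup hN⟩

/-- Sanity check: `X^*` is the smallest Fitting class with the required property. -/
theorem upperStar_isLeast (X : (G : Type) → [Group G] → Prop) (hX : IsFittingClass X) :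
    IsFittingClass (upperStar X) ∧ RadicalOfProduct (upperStar X) ∧
      (∀ (G : Type) [Group G], X G → upperStar X G) ∧
      ∀ Y : (G : Type) → [Group G] → Prop, IsFittingClass Y → RadicalOfProduct Y →
        (∀ (G : Type) [Group G], X G → Y G) → ∀ (G : Type) [Group G], upperStar X G → Y G := by
  have hF := (fit_iff X).1 hX
  have e : upperStar X = Lk.star X := by
    funext G _
    exact propext (star_iff X G)
  refine ⟨?_, ?_, ?_, ?_⟩
  · rw [e, fit_iff]
    exact Lk.star_fit hF
  · rw [e, lock_iff]
    exact Lk.star_lock hF
  · intro G _ hG Y _ _ h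
    exact h G hG
  · intro Y hY hL h G _ hG
    exact hG Y hY hL h

/-- There are Fitting classes `X` and `Y` of finite soluble groups which both satisfy the Lockett
condition while their intersection does not. -/
theorem result :
    ∃ X Y : (G : Type) → [Group G] → Prop, IsFittingClass X ∧ IsFittingClass Y ∧
      LockettCondition X ∧ LockettCondition Y ∧ ¬ LockettCondition (fun G _ => X G ∧ Y G) := by
  obtain ⟨A, B, h1, h2, h3, h4, h5⟩ := Lk.main
  refine ⟨A, B, (fit_iff A).2 h1, (fit_iff B).2 h2, (lc_iff A).2 h3, (lc_iff B).2 h4, ?_⟩
  intro h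
  exact h5 ((lc_iff _).1 h)

end Pool.Agent.Results.MP_060950_al.LockettIntersection
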